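import Mathlib
import Pool.Agent.H710R2.DP.Defs
import Pool.Agent.H710R2.DP.Defs2
import Pool.Agent.H710R2.DP.Tasks
import Pool.Agent.H710R2.DP.VTasks

/-!
Task V09 of the derivation problem project: homogeneous pieces (helper8).
-/

open scoped ComplexOrder InnerProductSpace ComplexConjugate
open Finset

noncomputable section

namespace H710R2.DP

open H759R2.Kad

namespace ZV09

variable {H : Type} [NormedAddCommGroup H] [InnerProductSpace ℂ H] [CompleteSpace H]

/-- `star v * v = e` with `e` a projection implies `v * e = v` -/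
lemma mul_e {e v : H →L[ℂ] H} (he : IsPr e) (hv : star v * v = e) : v * e = v := by
  have h : star (v * e - v) * (v * e - v) = 0 := by
    rw [star_sub, star_mul, he.1]
    have h1 : (e * star v - star v) * (v * e - v) =
        e * (star v * v) * e - e * (star v * v) - (star v * v) * e + star v * v := by noncomm_ring
    rw [h1, hv, he.2, he.2]
    noncomm_ring
  have h2 := CStarRing.star_mul_self_eq_zero_iff (v * e - v) |>.1 h
  exact sub_eq_zero.1 h2

/-- admissible sets of partial isometries -/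
def Adm (M : VonNeumannAlgebra H) (e : H →L[ℂ] H) (W : Set (H →L[ℂ] H)) : Prop :=
  (∀ v ∈ W, v ∈ M ∧ star v * v = e) ∧ ∀ v ∈ W, ∀ w ∈ W, v ≠ w → star v * w = 0

lemma exists_max (M : VonNeumannAlgebra H) (e : H →L[ℂ] H) (heM : e ∈ M) (he : IsPr e) :
    ∃ W : Set (H →L[ℂ] H), e ∈ W ∧ Adm M e W ∧ ∀ W', Adm M e W' → W ⊆ W' → W' ⊆ W := by
  have h := zorn_subset_nonempty {W : Set (H →L[ℂ] H) | Adm M e W} ?_ {e} ?_
  · obtain ⟨W, hW, hmax⟩ := h
    exact ⟨W, hW rfl, hmax.prop, fun W' h1 h2 => hmax.le_of_ge h1 h2⟩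
  · intro c hc hch hne
    refine ⟨⋃₀ c, ⟨?_, ?_⟩, fun s hs => Set.subset_sUnion_of_mem hs⟩
    · rintro v ⟨s, hs, hv⟩
      exact (hc hs).1 v hv
    · rintro v ⟨s, hs, hv⟩ w ⟨t, ht, hw⟩ hne
      rcases hch.total hs ht with h1 | h1
      · exact (hc ht).2 v (h1 hv) w hw hne
      · exact (hc hs).2 v hv w (h1 hw) hne
  · refine ⟨?_, ?_⟩
    · rintro v rfl
      exact ⟨heM, by rw [he.1, he.2]⟩
    · rintro v rfl w rfl hne
      exact absurd rfl hne

end ZV09

open ZV09 in
theorem dp_Vabel (h1 : V_supp) (h2 : V_span) (h3 : V_absorb) : V_abel := by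
  intro H _ _ _ M e heM he hne hab
  obtain ⟨ze, ⟨hzeP, hzeM, hzeC⟩, hzee, hzeU⟩ := h1 H M e heM
  obtain ⟨W, heW, hW, hmax⟩ := exists_max M e heM he
  obtain ⟨f, hfM, hfP, hfv, hfU⟩ := h2 H M W (fun v hv => (hW.1 v hv).1)
  -- `ze v = v`
  have hve : ∀ v ∈ W, v * e = v := fun v hv => mul_e he (hW.1 v hv).2
  have hzev : ∀ v ∈ W, ze * v = v := by
    intro v hv
    conv_lhs => rw [← hve v hv, ← mul_assoc, hzeC v (hW.1 v hv).1, mul_assoc, hzee]
    exact hve v hv
  have hzef : ze * f = f := by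
    have := hfU (1 - ze) (fun v hv => by rw [sub_mul, one_mul, hzev v hv, sub_self])
    rw [sub_mul, one_mul, sub_eq_zero] at this
    exact this.symm
  have hfze : f * ze = f := by rw [← hzeC f hfM, hzef]
  -- `r = ze - f`
  set r : H →L[ℂ] H := ze - f with hr
  have hrM : r ∈ M := sub_mem hzeM hfM
  have hrP : IsPr r := by
    refine ⟨by rw [hr, star_sub, hzeP.1, hfP.1], ?_⟩
    rw [hr, sub_mul, mul_sub, mul_sub, hzeP.2, hzef, hfze, hfP.2, sub_self, sub_zero]
  have hzer : ze * r = r := by rw [hr, mul_sub, hzeP.2, hzef]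
  have hfr : f * r = 0 := by rw [hr, mul_sub, hfze, hfP.2, sub_self]
  obtain ⟨zr, ⟨hzrP, hzrM, hzrC⟩, hzrr, hzrU⟩ := h1 H M r hrM
  have hzezr : ze * zr = zr := by
    have h5 := hzrU (1 - ze) (fun a ha => by
      have h4 : (1 - ze) * a * r = a * (r - ze * r) := by
        rw [sub_mul, one_mul, hzeC a ha]; noncomm_ring
      rw [h4, hzer, sub_self, mul_zero])
    rw [sub_mul, one_mul, sub_eq_zero] at h5
    exact h5.symm
  have hzrze : zr * ze = zr := by rw [← hzeC zr hzrM, hzezr]
  set p : H →L[ℂ] H := ze - zr with hp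
  have hpP : IsPr p := by
    refine ⟨by rw [hp, star_sub, hzeP.1, hzrP.1], ?_⟩
    rw [hp, sub_mul, mul_sub, mul_sub, hzeP.2, hzezr, hzrze, hzrP.2, sub_self, sub_zero]
  have hpM : p ∈ M := sub_mem hzeM hzrM
  have hpC : ∀ a ∈ M, p * a = a * p := by
    intro a ha
    rw [hp, sub_mul, mul_sub, hzeC a ha, hzrC a ha]
  have hpr : p * r = 0 := by rw [hp, sub_mul, hzer, hzrr, sub_self]
  have hpze : p * ze = p := by rw [hp, sub_mul, hzeP.2, hzrze]
  have hpf : p * f = p := by
    have h4 : p * ze = p * (f + r) := by rw [hr, add_sub_cancel]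
    rw [mul_add, hpr, add_zero, hpze] at h4
    exact h4.symm
  -- central projections `w` with `w e = e`
  have hwe : ∀ w, IsCP M w → (w * e = e ↔ w * ze = ze) := by
    rintro w ⟨hwP, hwM, hwC⟩
    constructor
    · intro hw
      have h5 := hzeU (1 - w) (fun a ha => by
        have h4 : (1 - w) * a * e = a * (e - w * e) := by
          rw [sub_mul, one_mul, hwC a ha]; noncomm_ring
        rw [h4, hw, sub_self, mul_zero])
      rw [sub_mul, one_mul, sub_eq_zero] at h5
      exact h5.symm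
    · intro hw
      rw [← hzee, ← mul_assoc, hw]
  have hwr : ∀ w, IsCP M w → (w * r = r ↔ w * zr = zr) := by
    rintro w ⟨hwP, hwM, hwC⟩
    constructor
    · intro hw
      have h5 := hzrU (1 - w) (fun a ha => by
        have h4 : (1 - w) * a * r = a * (r - w * r) := by
          rw [sub_mul, one_mul, hwC a ha]; noncomm_ring
        rw [h4, hw, sub_self, mul_zero])
      rw [sub_mul, one_mul, sub_eq_zero] at h5
      exact h5.symm
    · intro hw
      rw [← hzrr, ← mul_assoc, hw]
  have hpne : p ≠ 0 := by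
    intro hp0
    have hzz : ze = zr := by rw [hp, sub_eq_zero] at hp0; exact hp0
    obtain ⟨v, hvM, hv1, hv2⟩ := h3 H M e r heM hrM he hrP hab (fun w hw => by
      rw [hwr w hw, hwe w hw, hzz])
    have hort : ∀ w ∈ W, star w * v = 0 := by
      intro w hw
      have h4 : star w = star w * f := by
        conv_lhs => rw [← hfv w hw, star_mul, hfP.1]
      rw [h4, ← hv2, mul_assoc, ← mul_assoc f, hfr, zero_mul, mul_zero]
    have hAdm : Adm M e (insert v W) := by
      refine ⟨?_, ?_⟩
      · rintro w (rfl | hw)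
        · exact ⟨hvM, hv1⟩
        · exact hW.1 w hw
      · rintro w (rfl | hw) w' (rfl | hw') hne'
        · exact absurd rfl hne'
        · have h4 := hort w' hw'
          have h5 : star (star w' * w) = star w * w' := by rw [star_mul, star_star]
          rw [← h5, h4, star_zero]
        · exact hort w hw
        · exact hW.2 w hw w' hw' hne'
    have hvW : v ∈ W := hmax _ hAdm (Set.subset_insert v W) (Set.mem_insert v W)
    have h6 := hort v hvW
    rw [hv1] at h6
    exact hne h6
  refine ⟨p, ⟨hpP, hpM, hpC⟩, hpne, ?_, ?_⟩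
  · intro z hz hze
    have h4 := (hwe z hz).1 hze
    have h5 : z * zr = zr := by rw [← hzezr, ← mul_assoc, h4]
    rw [hp, mul_sub, h4, h5]
  · refine ⟨W, fun v => p * v.1, ⟨⟨e, heW⟩⟩, ?_, ?_, ?_, ?_⟩
    · rintro ⟨v, hv⟩
      refine ⟨mul_mem hpM (hW.1 v hv).1, ?_⟩
      change star (p * v) * (p * v) = p * e
      rw [star_mul, hpP.1, mul_assoc, ← mul_assoc p p v, hpP.2, hpC v (hW.1 v hv).1, ← mul_assoc,
        (hW.1 v hv).2, hpC e heM]
    · rintro ⟨v, hv⟩ ⟨w, hw⟩ hne'
      have hne'' : v ≠ w := fun h => hne' (Subtype.ext h)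
      change star (p * v) * (p * w) = 0
      rw [star_mul, hpP.1, mul_assoc, ← mul_assoc p p w, hpP.2, hpC w (hW.1 w hw).1, ← mul_assoc,
        hW.2 v hv w hw hne'', zero_mul]
    · rintro ⟨v, hv⟩
      change p * (p * v) = p * v
      rw [← mul_assoc, hpP.2]
    · intro y hy
      have h4 := hfU (y * p) (fun v hv => by
        rw [mul_assoc]
        exact hy ⟨v, hv⟩)
      rw [mul_assoc, hpf] at h4
      exact h4

end H710R2.DP
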